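import Pool.Agent.W941.MG.Stm

namespace Pool.Agent.W82.MG

open Pool.Agent.W941.MG

set_option autoImplicit false

theorem choose_mono_half (n h : ℕ) (hh : h ≤ n / 2) : ∀ i ≤ h, n.choose i ≤ n.choose h := by
  induction h with
  | zero => intro i hi; rw [Nat.le_zero.mp hi]
  | succ h ih =>
    intro i hi
    rcases Nat.lt_or_ge i (h + 1) with h1 | h1
    · exact (ih (by omega) i (by omega)).trans (Nat.choose_le_succ_of_lt_half_left (by omega))
    · have : i = h + 1 := by omega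
      rw [this]

theorem choose_add (t h r : ℕ) (hh : 2 * h ≤ t) : (t + r).choose h ≤ 2 ^ r * t.choose h := by
  induction r with
  | zero => simp
  | succ r ih =>
    have e : (t + (r + 1)).choose h ≤ 2 * (t + r).choose h := by
      rcases Nat.eq_zero_or_pos h with h0 | h0
      · subst h0; simp
      · obtain ⟨k, rfl⟩ : ∃ k, h = k + 1 := ⟨h - 1, by omega⟩
        rw [← add_assoc, Nat.choose_succ_succ']
        have h9 : (t + r).choose k ≤ (t + r).choose (k + 1) :=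
          Nat.choose_le_succ_of_lt_half_left (by omega)
        omega
    calc _ ≤ _ := e
      _ ≤ 2 * (2 ^ r * t.choose h) := by gcongr
      _ = _ := by ring

theorem choose_grow (K m : ℕ) (h : ℕ) : ∀ d, h + d ≤ m →
    K ^ d * ((K + 1) * m).choose h ≤ ((K + 1) * m).choose (h + d) := by
  intro d
  induction d with
  | zero => intro _; simp
  | succ d ih =>
    intro hd
    have h1 := ih (by omega)
    have h2 := Nat.choose_succ_right_eq ((K + 1) * m) (h + d)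
    have h3 : K * (h + d + 1) ≤ (K + 1) * m - (h + d) := by
      have : (K + 1) * (h + d + 1) ≤ (K + 1) * m := Nat.mul_le_mul_left _ (by omega)
      have e : (K + 1) * (h + d + 1) = K * (h + d + 1) + (h + d) + 1 := by ring
      omega
    have h4 : K * ((K + 1) * m).choose (h + d) ≤ ((K + 1) * m).choose (h + d + 1) := by
      have : (K * ((K + 1) * m).choose (h + d)) * (h + d + 1) ≤
          ((K + 1) * m).choose (h + d + 1) * (h + d + 1) := by
        rw [h2]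
        calc _ = ((K + 1) * m).choose (h + d) * (K * (h + d + 1)) := by ring
          _ ≤ _ := Nat.mul_le_mul_left _ h3
      exact Nat.le_of_mul_le_mul_right this (by omega)
    calc K ^ (d + 1) * ((K + 1) * m).choose h = K * (K ^ d * ((K + 1) * m).choose h) := by ring
      _ ≤ K * ((K + 1) * m).choose (h + d) := Nat.mul_le_mul_left _ h1
      _ ≤ _ := h4

theorem fin_stmt : FinStmt := by
  intro K hK δ hδ
  have hr : (1 : ℝ) < (2 : ℝ) ^ (δ / 2) := Real.one_lt_rpow (by norm_num) (by linarith)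
  have ht := tendsto_pow_const_div_const_pow_of_one_lt 3 hr
  have hc : (0 : ℝ) < 1 / (2 * (K * 2 ^ (2 * K + 3))) := by positivity
  have hev := (ht.eventually (gt_mem_nhds hc)).and (Filter.eventually_ge_atTop 1)
  obtain ⟨n₀, hn₀⟩ := Filter.eventually_atTop.mp hev
  refine ⟨n₀, ?_⟩
  intro n hn m hm N D s hN hD hs
  obtain ⟨hlim, hn1⟩ := hn₀ n hn
  have hn1' : (1 : ℝ) ≤ n := by exact_mod_cast hn1
  set h := (m + 1) / 2 with hh
  have hmn : (K + 1) * m ≤ n := by rw [hm]; exact Nat.mul_div_le n (K + 1)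
  have hmn' : n < (K + 1) * m + (K + 1) := by
    have := Nat.lt_mul_div_succ n (show 0 < K + 1 by omega)
    rw [hm]
    calc n < (K + 1) * (n / (K + 1) + 1) := this
      _ = _ := by ring
  obtain ⟨r, hr1⟩ : ∃ r, n = (K + 1) * m + r := ⟨n - (K + 1) * m, by omega⟩
  have hrK : r ≤ K := by omega
  have h3m : 3 * m ≤ (K + 1) * m := Nat.mul_le_mul_right m (by omega)
  have hmm : m ≤ n := by omega
  -- bound for D
  have hD1 : D ≤ (h + 1) * (2 ^ K * ((K + 1) * m).choose h) := by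
    have e1 : (D : ℝ) = ((∑ i ∈ Finset.range (h + 1), n.choose i : ℕ) : ℝ) := by
      rw [hD]; push_cast; rfl
    have e2 : D = ∑ i ∈ Finset.range (h + 1), n.choose i := by exact_mod_cast e1
    rw [e2]
    have e3 : ∀ i ∈ Finset.range (h + 1), n.choose i ≤ 2 ^ K * ((K + 1) * m).choose h := by
      intro i hi
      have hi' : i ≤ h := by simpa [Nat.lt_succ_iff] using hi
      calc n.choose i ≤ n.choose h := choose_mono_half n h (by omega) i hi'
        _ ≤ 2 ^ r * ((K + 1) * m).choose h := by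
            rw [hr1]
            rcases Nat.eq_zero_or_pos m with h0 | h0
            · have : h = 0 := by omega
              rw [this, h0]; simp
              exact Nat.one_le_two_pow
            · exact choose_add _ _ _ (by omega)
        _ ≤ _ := Nat.mul_le_mul_right _ (Nat.pow_le_pow_right (by norm_num) hrK)
    calc _ ≤ ∑ _i ∈ Finset.range (h + 1), 2 ^ K * ((K + 1) * m).choose h :=
          Finset.sum_le_sum e3
      _ = _ := by rw [Finset.sum_const, Finset.card_range, smul_eq_mul]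
  have hle : h ≤ m := by omega
  have hgrow := choose_grow K m h (m - h) (by omega)
  rw [Nat.add_sub_cancel' hle] at hgrow
  have hCpos : 0 < ((K + 1) * m).choose h := Nat.choose_pos (by omega)
  have hCpos' : (0 : ℝ) < (((K + 1) * m).choose h : ℝ) := by exact_mod_cast hCpos
  have hNs : (N : ℝ) ≤ 2 ^ (K + 3) * n ^ 2 * s * ((h + 1) * (2 ^ K * (((K + 1) * m).choose h : ℝ))) := by
    have : N ≤ 2 ^ (K + 3) * n ^ 2 * s * ((h + 1) * (2 ^ K * ((K + 1) * m).choose h)) :=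
      hs.trans (Nat.mul_le_mul_left _ hD1)
    exact_mod_cast this
  have hgrow' : (K : ℝ) ^ (m - h) * (((K + 1) * m).choose h : ℝ) ≤ (((K + 1) * m).choose m : ℝ) := by
    exact_mod_cast hgrow
  have hp1 : (0 : ℝ) < (2 : ℝ) ^ (-(δ / 2) * m) := by positivity
  have hmain : (2 : ℝ) ^ (-(δ / 2) * m) * (K : ℝ) ^ (m - h) ≤
      2 ^ (2 * K + 3) * n ^ 2 * (h + 1) * s := by
    have a1 : (2 : ℝ) ^ (-(δ / 2) * m) * ((K : ℝ) ^ (m - h) * (((K + 1) * m).choose h : ℝ)) ≤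
        2 ^ (K + 3) * n ^ 2 * s * ((h + 1) * (2 ^ K * (((K + 1) * m).choose h : ℝ))) :=
      (mul_le_mul_of_nonneg_left hgrow' hp1.le).trans (hN.trans hNs)
    have a2 : ((2 : ℝ) ^ (-(δ / 2) * m) * (K : ℝ) ^ (m - h)) * (((K + 1) * m).choose h : ℝ) ≤
        (2 ^ (2 * K + 3) * n ^ 2 * (h + 1) * s) * (((K + 1) * m).choose h : ℝ) := by
      calc _ = (2 : ℝ) ^ (-(δ / 2) * m) * ((K : ℝ) ^ (m - h) * (((K + 1) * m).choose h : ℝ)) := by ring
        _ ≤ _ := a1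
        _ = _ := by
          have : (2 : ℝ) ^ (2 * K + 3) = 2 ^ (K + 3) * 2 ^ K := by rw [← pow_add]; congr 1; ring
          rw [this]; ring
    exact le_of_mul_le_mul_right a2 hCpos'
  -- exponents
  have hK0 : (0 : ℝ) < K := by exact_mod_cast (by omega : 0 < K)
  have hK1 : (1 : ℝ) ≤ K := by exact_mod_cast (by omega : 1 ≤ K)
  have hKpow : (K : ℝ) ^ ((n : ℝ) / (2 * (K + 1))) ≤ K * (K : ℝ) ^ (m - h) := by
    have e1 : (K : ℝ) * (K : ℝ) ^ (m - h) = (K : ℝ) ^ (((m - h + 1 : ℕ) : ℝ)) := by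
      rw [Real.rpow_natCast, pow_succ]; ring
    rw [e1]
    apply Real.rpow_le_rpow_of_exponent_le hK1
    have e2 : (n : ℝ) ≤ (K + 1) * (2 * ((m - h + 1 : ℕ) : ℝ)) := by
      have : n ≤ (K + 1) * (2 * (m - h + 1)) := by
        have h5 : m + 1 ≤ 2 * (m - h + 1) := by omega
        calc n ≤ (K + 1) * m + (K + 1) := hmn'.le
          _ = (K + 1) * (m + 1) := by ring
          _ ≤ _ := Nat.mul_le_mul_left _ h5
      exact_mod_cast this
    rw [div_le_iff₀ (by positivity)]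
    calc (n : ℝ) ≤ (K + 1) * (2 * ((m - h + 1 : ℕ) : ℝ)) := e2
      _ = _ := by ring
  have h2pow : (2 : ℝ) ^ (-(δ / 2) * (n : ℝ)) ≤ (2 : ℝ) ^ (-(δ / 2) * m) := by
    apply Real.rpow_le_rpow_of_exponent_le (by norm_num)
    have : (m : ℝ) ≤ n := by exact_mod_cast hmm
    nlinarith
  have hrn : ((2 : ℝ) ^ (δ / 2)) ^ n = (2 : ℝ) ^ ((δ / 2) * (n : ℝ)) := by
    rw [← Real.rpow_natCast, ← Real.rpow_mul (by norm_num)]
  rw [hrn] at hlim
  have hE : (0 : ℝ) < (2 : ℝ) ^ ((δ / 2) * (n : ℝ)) := by positivity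
  have hpoly : (K : ℝ) * (2 ^ (2 * K + 3) * n ^ 2 * (h + 1)) ≤ (2 : ℝ) ^ ((δ / 2) * (n : ℝ)) := by
    have b1 : (h : ℝ) + 1 ≤ 2 * n := by
      have : h + 1 ≤ 2 * n := by omega
      exact_mod_cast this
    have b2 : (n : ℝ) ^ 3 ≤ 1 / (2 * (K * 2 ^ (2 * K + 3))) * (2 : ℝ) ^ ((δ / 2) * (n : ℝ)) := by
      have := hlim.le
      rwa [div_le_iff₀ hE] at this
    have hq : (0 : ℝ) < 2 * (K * 2 ^ (2 * K + 3)) := by positivity
    calc (K : ℝ) * (2 ^ (2 * K + 3) * n ^ 2 * (h + 1)) ≤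
          (K : ℝ) * (2 ^ (2 * K + 3) * n ^ 2 * (2 * n)) := by gcongr
      _ = 2 * (K * 2 ^ (2 * K + 3)) * (n : ℝ) ^ 3 := by ring
      _ ≤ 2 * (K * 2 ^ (2 * K + 3)) *
          (1 / (2 * (K * 2 ^ (2 * K + 3))) * (2 : ℝ) ^ ((δ / 2) * (n : ℝ))) := by gcongr
      _ = _ := by field_simp
  have hsplit : (2 : ℝ) ^ (-δ * n) = (2 : ℝ) ^ (-(δ / 2) * (n : ℝ)) * ((2 : ℝ) ^ ((δ / 2) * (n : ℝ)))⁻¹ := by
    rw [← Real.rpow_neg (by norm_num), ← Real.rpow_add (by norm_num)]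
    congr 1; ring
  have hs0 : (0 : ℝ) ≤ s := Nat.cast_nonneg _
  have hfin : (2 : ℝ) ^ (-δ * n) * (K : ℝ) ^ ((n : ℝ) / (2 * (K + 1))) ≤
      ((2 : ℝ) ^ ((δ / 2) * (n : ℝ)))⁻¹ * (K * (2 ^ (2 * K + 3) * n ^ 2 * (h + 1)) * s) := by
    rw [hsplit]
    calc (2 : ℝ) ^ (-(δ / 2) * (n : ℝ)) * ((2 : ℝ) ^ ((δ / 2) * (n : ℝ)))⁻¹ *
          (K : ℝ) ^ ((n : ℝ) / (2 * (K + 1)))
        ≤ (2 : ℝ) ^ (-(δ / 2) * (m : ℝ)) * ((2 : ℝ) ^ ((δ / 2) * (n : ℝ)))⁻¹ *
          (K * (K : ℝ) ^ (m - h)) := by gcongr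
      _ = ((2 : ℝ) ^ ((δ / 2) * (n : ℝ)))⁻¹ * (K * ((2 : ℝ) ^ (-(δ / 2) * (m : ℝ)) *
          (K : ℝ) ^ (m - h))) := by ring
      _ ≤ ((2 : ℝ) ^ ((δ / 2) * (n : ℝ)))⁻¹ * (K * (2 ^ (2 * K + 3) * n ^ 2 * (h + 1) * s)) := by
          gcongr
      _ = _ := by ring
  refine hfin.trans ?_
  calc ((2 : ℝ) ^ ((δ / 2) * (n : ℝ)))⁻¹ * (K * (2 ^ (2 * K + 3) * n ^ 2 * (h + 1)) * s)
      ≤ ((2 : ℝ) ^ ((δ / 2) * (n : ℝ)))⁻¹ * ((2 : ℝ) ^ ((δ / 2) * (n : ℝ)) * s) := by gcongr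
    _ = s := by field_simp

end Pool.Agent.W82.MG
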